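import Mathlib
import Pool.Agent.TH61.K13.Low
import Pool.Agent.TH61.K13.Up

set_option autoImplicit false

namespace Pool.Agent.Results.MP_a5101a_co.ExplicitBounds

open Pool.Agent.TH61.K13

/-- The mean distance of thirteen unit balls touching or surrounding a unit ball without overlap:
its infimum lies between 2 + 11/26000 > 2.00042 and 2.05341. -/
theorem result :
    (∀ x : Fin 13 → EuclideanSpace ℝ (Fin 3), (∀ i, 2 ≤ ‖x i‖) →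
      (∀ i j, i ≠ j → 2 ≤ ‖x i - x j‖) → 2 + 11 / 26000 < (∑ i, ‖x i‖) / 13) ∧
    2 + 11 / 26000 ≤ sInf {M : ℝ | ∃ x : Fin 13 → EuclideanSpace ℝ (Fin 3), (∀ i, 2 ≤ ‖x i‖) ∧
      (∀ i j, i ≠ j → 2 ≤ ‖x i - x j‖) ∧ M = (∑ i, ‖x i‖) / 13} ∧
    sInf {M : ℝ | ∃ x : Fin 13 → EuclideanSpace ℝ (Fin 3), (∀ i, 2 ≤ ‖x i‖) ∧
      (∀ i j, i ≠ j → 2 ≤ ‖x i - x j‖) ∧ M = (∑ i, ‖x i‖) / 13} < 2.05341 := by
  have h1 : ∀ x : Fin 13 → EuclideanSpace ℝ (Fin 3), (∀ i, 2 ≤ ‖x i‖) →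
      (∀ i j, i ≠ j → 2 ≤ ‖x i - x j‖) → 2 + 11 / 26000 < (∑ i, ‖x i‖) / 13 := by
    intro x hx hxx
    have := lower x hx hxx
    rw [Finset.sum_sub_distrib, Finset.sum_const, Finset.card_univ, Fintype.card_fin,
      nsmul_eq_mul] at this
    push_cast at this
    linarith
  obtain ⟨x, hx, hxx, hM⟩ := upper
  refine ⟨h1, ?_, ?_⟩
  · refine le_csInf ⟨(∑ i, ‖x i‖) / 13, x, hx, hxx, rfl⟩ ?_
    rintro M ⟨z, hz, hzz, rfl⟩
    exact (h1 z hz hzz).le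
  · have hb : BddBelow {M : ℝ | ∃ x : Fin 13 → EuclideanSpace ℝ (Fin 3), (∀ i, 2 ≤ ‖x i‖) ∧
        (∀ i j, i ≠ j → 2 ≤ ‖x i - x j‖) ∧ M = (∑ i, ‖x i‖) / 13} := by
      refine ⟨2, ?_⟩
      rintro M ⟨z, hz, hzz, rfl⟩
      have := h1 z hz hzz
      linarith
    have h2 := csInf_le hb ⟨x, hx, hxx, rfl⟩
    norm_num at hM ⊢
    exact lt_of_le_of_lt h2 hM

end Pool.Agent.Results.MP_a5101a_co.ExplicitBounds
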